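import Mathlib
import Pool.Agent.H75.Chain

/-! A torsion-free abelian group whose square is Krylov transitive but which is not transitive. -/

set_option autoImplicit false

namespace Pool.Agent.Results.MP_b84a00_al.NotTransitive

open Polynomial Filter Pool.Agent.H75.Chain

section defs
variable (G : Type) [AddCommGroup G]

variable {G} in
/-- The characteristic of `x`: its `p`-heights. -/
noncomputable def chi (x : G) (p : Nat.Primes) : ℕ∞ :=
  ⨆ (n : ℕ) (_ : ∃ y : G, x = (p : ℕ) ^ n • y), (n : ℕ∞)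

def Transitive : Prop := ∀ x y : G, chi x = chi y → ∃ f : G ≃+ G, f x = y

def Krylov : Prop := ∀ x y : G, chi x = chi y → ∃ f : G →+ G, f x = y

end defs

theorem chi_dvd {G : Type} [AddCommGroup G] {x y : G} (h : chi x = chi y) (p : ℕ) (hp : p.Prime)
    (n : ℕ) (hx : ∃ z, x = p ^ n • z) : ∃ z, y = p ^ n • z := by
  by_contra hy
  have h1 : (n : ℕ∞) ≤ chi y ⟨p, hp⟩ := h ▸ le_iSup₂_of_le (f := fun (n : ℕ)
    (_ : ∃ y : G, x = p ^ n • y) => (n : ℕ∞)) n hx le_rfl
  rcases n with _ | n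
  · exact hy ⟨y, by simp⟩
  have h2 : chi y ⟨p, hp⟩ ≤ n := iSup₂_le fun k ⟨z, hz⟩ => by
    by_contra hk
    obtain ⟨j, rfl⟩ := Nat.exists_eq_add_of_le (show n + 1 ≤ k by simpa using hk)
    exact hy ⟨p ^ j • z, by rw [hz, pow_add, mul_smul]⟩
  exact absurd (ENat.natCast_le_natCast.1 (h1.trans h2)) (by omega)

variable (d : Data)

instance (n : ℕ) : Fact (d.p n).Prime := ⟨d.hp n⟩

/-- The norm at the `n`-th place. -/
def N (n : ℕ) (q : ℚ) : ℚ := padicNorm (d.p n) q

theorem N_mul (n : ℕ) (a b : ℚ) : N d n (a * b) = N d n a * N d n b := padicNorm.mul a b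
theorem N_nonneg (n : ℕ) (a : ℚ) : 0 ≤ N d n a := padicNorm.nonneg a
theorem N_add (n : ℕ) (a b : ℚ) : N d n (a + b) ≤ max (N d n a) (N d n b) :=
  padicNorm.nonarchimedean
theorem N_le {n : ℕ} {a : ℚ} (b : ℚ) (h : N d n a ≤ 1) : N d n (a * b) ≤ N d n b := by
  rw [N_mul]; exact mul_le_of_le_one_left (N_nonneg d n b) h

theorem ev_int (g : ℚ[X]) : ∀ᶠ n in atTop, N d n (g.eval (d.t n : ℚ)) ≤ 1 := by
  induction g using Polynomial.induction_on' with
  | add f g hf hg =>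
    filter_upwards [hf, hg] with n a b
    rw [eval_add]; exact (N_add d n _ _).trans (max_le a b)
  | monomial k a =>
    filter_upwards [eventually_gt_atTop a.den] with n hn
    have : N d n a ≤ 1 := by
      rw [← a.num_div_den, N, padicNorm.div, (padicNorm.nat_eq_one_iff _).2 fun h => by
        have := Nat.le_of_dvd a.pos h; have := d.mono.le_apply (x := n); omega, div_one]
      exact padicNorm.of_int _
    rw [eval_monomial]
    exact (N_le d _ this).trans (by exact_mod_cast padicNorm.of_nat (d.t n ^ k))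

theorem ev_ne {g : ℚ[X]} (h : g ≠ 0) : ∀ᶠ n in atTop, g.eval (d.t n : ℚ) ≠ 0 := by
  obtain ⟨b, hb⟩ := (finite_setOfPred_isRoot h).bddAbove
  obtain ⟨m, hm⟩ := exists_nat_gt b
  filter_upwards [eventually_gt_atTop m] with n hn e
  have h1 : (d.t n : ℚ) ≤ b := hb e
  have h2 : (m : ℚ) < d.t n := by exact_mod_cast hn.trans (d.ht n)
  linarith

theorem ev_zero (m : ℚ) {g : ℚ[X]} (h : ∀ᶠ n in atTop, d.l n = m → g.eval (d.t n : ℚ) = 0) :
    g = 0 := by
  by_contra e
  obtain ⟨n, h1, h2, h3⟩ := ((d.hit m X (by simp)).and_eventually (h.and (ev_ne d e))).exists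
  exact h3 (h2 h1.1)

theorem ev_dvd (m : ℚ) {g h : ℚ[X]} (e : ∀ᶠ n in atTop, d.l n = m →
    N d n (h.eval (d.t n : ℚ)) ≤ N d n (g.eval (d.t n : ℚ))) : g ∣ h := by
  by_cases g0 : g = 0
  · rw [g0, zero_dvd_iff]
    refine ev_zero d m (e.mono fun n a b => padicNorm.zero_of_padicNorm_eq_zero (p := d.p n) ?_)
    exact le_antisymm (by simpa [g0, N] using a b) (N_nonneg d n _)
  obtain ⟨g', h', e1, e2, e3⟩ := extract_gcd g h
  set c := gcd g h
  have c0 : c ≠ 0 := fun z => g0 (by rw [e1, z, zero_mul])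
  obtain ⟨u, v, huv⟩ := (gcd_isUnit_iff _ _).1 e3
  by_cases hg : g'.natDegree = 0
  · have : IsUnit g' := isUnit_iff_degree_eq_zero.2
      ((degree_eq_iff_natDegree_eq fun z => g0 (by rw [e1, z, mul_zero])).2 hg)
    rw [e1, e2]
    exact mul_dvd_mul_left _ this.dvd
  obtain ⟨n, ⟨h1, h2⟩, h3, h4, h5, h6⟩ := ((d.hit m g' (Nat.pos_of_ne_zero hg)).and_eventually
    (e.and ((ev_ne d c0).and ((ev_int d u).and (ev_int d v))))).exists
  have h7 := h3 h1
  rw [e1, e2, eval_mul, eval_mul, N_mul, N_mul] at h7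
  have h8 := le_of_mul_le_mul_left h7 ((N_nonneg d n _).lt_of_ne' (padicNorm.nonzero h4))
  have h9 := N_add d n (u.eval (d.t n : ℚ) * g'.eval (d.t n : ℚ))
    (v.eval (d.t n : ℚ) * h'.eval (d.t n : ℚ))
  rw [← eval_mul, ← eval_mul, ← eval_add, huv, eval_one, eval_mul, eval_mul] at h9
  have := h9.trans_lt (max_lt ((N_le d _ h5).trans_lt h2) (((N_le d _ h6).trans h8).trans_lt h2))
  simp [N] at this

/-- Evaluation of a piecewise polynomial function at the `n`-th place. -/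
noncomputable def ev (F : ℚ → ℚ[X]) (n : ℕ) : ℚ := (F (d.l n)).eval (d.t n : ℚ)

theorem ev_int' {F : ℚ → ℚ[X]} (h : F ∈ Ch) : ∀ᶠ n in atTop, N d n (ev d F n) ≤ 1 :=
  ((eventually_all_finite h.1).2 fun g _ => ev_int d g).mono fun _ e => e _ ⟨_, rfl⟩

/-- The ring whose additive group is the example. -/
def R : Subring (ℕ → ℚ) where
  carrier := {a | (∀ n, N d n (a n) ≤ 1) ∧ ∃ F ∈ Ch, ∀ᶠ n in atTop, a n = ev d F n}
  mul_mem' := by
    rintro a b ⟨a1, F, f, a2⟩ ⟨b1, G, g, b2⟩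
    exact ⟨fun n => (N_le d _ (a1 n)).trans (b1 n), F * G, mul_mem f g,
      (a2.and b2).mono fun n e => by simp [ev, e.1, e.2]⟩
  add_mem' := by
    rintro a b ⟨a1, F, f, a2⟩ ⟨b1, G, g, b2⟩
    exact ⟨fun n => (N_add d n _ _).trans (max_le (a1 n) (b1 n)), F + G, add_mem f g,
      (a2.and b2).mono fun n e => by simp [ev, e.1, e.2]⟩
  one_mem' := ⟨fun n => by simp [N], 1, one_mem _, by simp [ev]⟩
  zero_mem' := ⟨fun n => by simp [N], 0, zero_mem _, by simp [ev]⟩
  neg_mem' := by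
    rintro a ⟨a1, F, f, a2⟩
    exact ⟨fun n => (padicNorm.neg _).trans_le (a1 n), -F, neg_mem f,
      a2.mono fun n e => by simp [ev, e]⟩

theorem N_pow (n k : ℕ) : N d n ((d.p n : ℚ) ^ k) = (d.p n : ℚ) ^ (-k : ℤ) := by
  induction k with
  | zero => simp [N]
  | succ k ih =>
    rw [pow_succ, N_mul, ih, N, padicNorm.padicNorm_p_of_prime, Nat.cast_succ, neg_add,
      zpow_add₀ (by exact_mod_cast (d.hp n).ne_zero), zpow_neg_one]

theorem dvd_iff (a : R d) (q : ℕ) (hq : q.Prime) (k : ℕ) : (∃ z, a = q ^ k • z) ↔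
    ∀ n, d.p n = q → N d n (a.1 n) ≤ (q : ℚ) ^ (-k : ℤ) := by
  have q0 : (q : ℚ) ^ k ≠ 0 := pow_ne_zero _ (by exact_mod_cast hq.ne_zero)
  constructor
  · rintro ⟨z, rfl⟩ n rfl
    rw [← N_pow]
    simpa [mul_comm] using N_le d ((d.p n : ℚ) ^ k) (z.2.1 n)
  · intro h
    obtain ⟨a1, F, f, a2⟩ := a.2
    refine ⟨⟨fun n => a.1 n / q ^ k, fun n => ?_, F * fun _ => C ((q : ℚ) ^ k)⁻¹,
      mul_mem f (const_mem _), a2.mono fun n e => by simp [ev, e, div_eq_mul_inv]⟩, ?_⟩
    · rw [N, padicNorm.div, div_le_one ((padicNorm.nonneg _).lt_of_ne' (padicNorm.nonzero q0))]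
      by_cases e : d.p n = q
      · have := h n e
        rwa [← e, ← N_pow, e] at this
      · refine (a1 n).trans (Eq.ge ?_)
        exact_mod_cast (padicNorm.nat_eq_one_iff (q ^ k)).2 fun z =>
          e ((Nat.prime_dvd_prime_iff_eq (d.hp n) hq).1 ((d.hp n).dvd_of_dvd_pow z))
    · ext n
      simp [mul_div_cancel₀ _ q0]

theorem comb (a b c : R d) (h : ∀ n, N d n (c.1 n) ≤ max (N d n (a.1 n)) (N d n (b.1 n))) :
    ∃ r s : R d, c = r * a + s * b := by
  obtain ⟨-, F, f, a2⟩ := a.2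
  obtain ⟨-, G, g, b2⟩ := b.2
  obtain ⟨-, H, k, c2⟩ := c.2
  obtain ⟨r, hr, s, hs, e⟩ := bezout f g k fun l => by
    obtain ⟨u, hu⟩ := EuclideanDomain.gcd_dvd_left (F l) (G l)
    obtain ⟨v, hv⟩ := EuclideanDomain.gcd_dvd_right (F l) (G l)
    obtain ⟨w, hw⟩ : EuclideanDomain.gcd (F l) (G l) ∣ H l := by
      refine ev_dvd d l ?_
      filter_upwards [a2, b2, c2, ev_int d u, ev_int d v] with n x y z i j e
      have := h n
      rw [x, y, z, ev, ev, ev, e] at this
      generalize EuclideanDomain.gcd (F l) (G l) = t at *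
      rw [hu, hv, eval_mul, eval_mul, mul_comm, mul_comm _ (v.eval _)] at this
      exact this.trans (max_le (N_le d _ i) (N_le d _ j))
    exact ⟨w * EuclideanDomain.gcdA (F l) (G l), w * EuclideanDomain.gcdB (F l) (G l), by
      rw [hw, EuclideanDomain.gcd_eq_gcd_ab]; ring⟩
  have loc : ∀ n (x y : ℚ), N d n y ≤ N d n x → ∃ u, N d n u ≤ 1 ∧ y = u * x := fun n x y e => by
    by_cases x0 : x = 0
    · refine ⟨0, by simp [N], (padicNorm.zero_of_padicNorm_eq_zero (p := d.p n) ?_).trans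
        (zero_mul x).symm⟩
      exact le_antisymm (by simpa [x0, N] using e) (N_nonneg d n _)
    · exact ⟨y / x, by
        rwa [N, padicNorm.div, div_le_one ((padicNorm.nonneg _).lt_of_ne' (padicNorm.nonzero x0))],
        by field_simp⟩
  have : ∀ n, ∃ u v, N d n u ≤ 1 ∧ N d n v ≤ 1 ∧ c.1 n = u * a.1 n + v * b.1 n ∧
      (N d n (ev d r n) ≤ 1 ∧ N d n (ev d s n) ≤ 1 ∧ c.1 n = ev d r n * a.1 n + ev d s n * b.1 n →
        u = ev d r n ∧ v = ev d s n) := fun n => by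
    by_cases z : N d n (ev d r n) ≤ 1 ∧ N d n (ev d s n) ≤ 1 ∧
      c.1 n = ev d r n * a.1 n + ev d s n * b.1 n
    · exact ⟨_, _, z.1, z.2.1, z.2.2, fun _ => ⟨rfl, rfl⟩⟩
    rcases le_max_iff.1 (h n) with y | y <;> obtain ⟨u, y1, y2⟩ := loc _ _ _ y
    · exact ⟨u, 0, y1, by simp [N], by simp [← y2], fun t => absurd t z⟩
    · exact ⟨0, u, by simp [N], y1, by simp [← y2], fun t => absurd t z⟩
  choose u v h1 h2 h3 h4 using this
  have : ∀ᶠ n in atTop, u n = ev d r n ∧ v n = ev d s n := by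
    filter_upwards [a2, b2, c2, ev_int' d hr, ev_int' d hs] with n x y z i j
    exact h4 n ⟨i, j, by simp [x, y, z, ev, e]⟩
  exact ⟨⟨u, h1, r, hr, this.mono fun _ t => t.1⟩, ⟨v, h2, s, hs, this.mono fun _ t => t.2⟩,
    Subtype.ext (funext h3)⟩

theorem krylov : Krylov (R d × R d) := by
  rintro ⟨a, b⟩ ⟨c, e⟩ h
  have key : ∀ n k : ℕ, max (N d n (a.1 n)) (N d n (b.1 n)) ≤ (d.p n : ℚ) ^ (-k : ℤ) →
      N d n (c.1 n) ≤ (d.p n : ℚ) ^ (-k : ℤ) ∧ N d n (e.1 n) ≤ (d.p n : ℚ) ^ (-k : ℤ) :=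
    fun n k m => by
      obtain ⟨z, hz⟩ := (dvd_iff d a _ (d.hp n) k).2 fun j i => by
        rw [d.mono.injective i]; exact (max_le_iff.1 m).1
      obtain ⟨w, hw⟩ := (dvd_iff d b _ (d.hp n) k).2 fun j i => by
        rw [d.mono.injective i]; exact (max_le_iff.1 m).2
      obtain ⟨y, hy⟩ := chi_dvd h _ (d.hp n) k ⟨(z, w), by rw [hz, hw]; rfl⟩
      exact ⟨(dvd_iff d c _ (d.hp n) k).1 ⟨y.1, congrArg Prod.fst hy⟩ n rfl,
        (dvd_iff d e _ (d.hp n) k).1 ⟨y.2, congrArg Prod.snd hy⟩ n rfl⟩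
  have le : ∀ x : R d, (∀ n k : ℕ, max (N d n (a.1 n)) (N d n (b.1 n)) ≤ (d.p n : ℚ) ^ (-k : ℤ) →
      N d n (x.1 n) ≤ (d.p n : ℚ) ^ (-k : ℤ)) →
      ∀ n, N d n (x.1 n) ≤ max (N d n (a.1 n)) (N d n (b.1 n)) := fun x hx n => by
    have p1 : (1 : ℚ) < d.p n := by exact_mod_cast (d.hp n).one_lt
    by_contra! lt
    have x0 : x.1 n ≠ 0 := fun z => by
      simp only [z, N, padicNorm.zero, max_lt_iff] at lt
      exact lt.1.not_ge (padicNorm.nonneg _)
    obtain ⟨j, hj⟩ := padicNorm.values_discrete (p := d.p n) x0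
    have j0 : 0 ≤ j := by
      have := x.2.1 n
      rw [N, hj, zpow_le_one_iff_right₀ p1] at this
      omega
    lift j to ℕ using j0
    have sm : ∀ y : ℚ, N d n y < N d n (x.1 n) → N d n y ≤ (d.p n : ℚ) ^ (-(j + 1 : ℕ) : ℤ) :=
      fun y hy => by
        by_cases y0 : y = 0
        · simp only [y0, N, padicNorm.zero]; positivity
        obtain ⟨i, hi⟩ := padicNorm.values_discrete (p := d.p n) y0
        rw [N, N, hj, hi, zpow_lt_zpow_iff_right₀ p1] at hy
        rw [N, hi, zpow_le_zpow_iff_right₀ p1]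
        omega
    have := hx n (j + 1) (max_le (sm _ (max_lt_iff.1 lt).1) (sm _ (max_lt_iff.1 lt).2))
    rw [N, hj, zpow_le_zpow_iff_right₀ p1] at this
    omega
  obtain ⟨r, s, h1⟩ := comb d a b c (le c fun n k m => (key n k m).1)
  obtain ⟨u, v, h2⟩ := comb d a b e (le e fun n k m => (key n k m).2)
  exact ⟨((AddMonoidHom.mulLeft r).coprod (AddMonoidHom.mulLeft s)).prod
    ((AddMonoidHom.mulLeft u).coprod (AddMonoidHom.mulLeft v)), by simp [h1, h2]⟩

theorem mult (f : R d →+ R d) (a : R d) : f a = f 1 * a := by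
  have z : ∀ (b : R d) (n : ℕ), b.1 n = 0 → (f b).1 n = 0 := fun b n h => by
    have p1 : (1 : ℚ) < d.p n := by exact_mod_cast (d.hp n).one_lt
    by_contra x0
    obtain ⟨j, hj⟩ := padicNorm.values_discrete (p := d.p n) x0
    obtain ⟨w, hw⟩ := (dvd_iff d b _ (d.hp n) (j.toNat + 1)).2 fun m e => by
      rw [d.mono.injective e, h]; simp only [N, padicNorm.zero]; positivity
    have := (dvd_iff d (f b) _ (d.hp n) (j.toNat + 1)).1 ⟨f w, by rw [hw, map_nsmul]⟩ n rfl
    rw [N, hj, zpow_le_zpow_iff_right₀ p1] at this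
    omega
  ext n
  have := z ((a.1 n).den • a - (a.1 n).num • 1) n (by simp [Rat.den_mul_eq_num])
  rw [map_sub, map_nsmul, map_zsmul] at this
  have e : ((a.1 n).den : ℚ) * (f a).1 n = (a.1 n).num * (f 1).1 n := by
    simpa [sub_eq_zero] using this
  rw [← Rat.den_mul_eq_num, mul_assoc, mul_right_inj' (by simp)] at e
  simp [e, mul_comm]

/-- Two bumps on the lines `0` and `1`, the second with sign `s`. -/
noncomputable def bump (s : ℤ) : ℚ → ℚ[X] :=
  fun l => if l = 0 then X * (1 - X) else if l = 1 then C (s : ℚ) * (X * (1 - X)) else 0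

theorem bump_mem (s : ℤ) : bump s ∈ Ch := by
  refine ⟨(Set.toFinite {X * (1 - X), C (s : ℚ) * (X * (1 - X)), 0}).subset ?_, {0, 1},
    fun l hl => ?_, fun l m _ _ => ?_⟩
  · rintro _ ⟨m, rfl⟩
    unfold bump; split_ifs <;> simp
  · simp only [Finset.mem_insert, Finset.mem_singleton, not_or] at hl
    simp [bump, hl]
  · unfold bump; split_ifs <;> simp

noncomputable def el (s : ℤ) : R d := ⟨ev d (bump s), fun n => by
  unfold ev bump
  split_ifs
  · simpa [N] using padicNorm.of_int (p := d.p n) (d.t n * (1 - d.t n))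
  · simpa [N] using padicNorm.of_int (p := d.p n) (s * (d.t n * (1 - d.t n)))
  · simp [N], _, bump_mem s, by simp⟩

theorem not_trans : ¬Transitive (R d) := fun h => by
  obtain ⟨f, hf⟩ := h (el d 1) (el d (-1)) (by
    have : ∀ n, N d n ((el d 1).1 n) = N d n ((el d (-1)).1 n) := fun n => by
      simp only [el, ev, bump]
      split_ifs <;> simp [N]
    funext p
    simp only [chi, dvd_iff d _ _ p.2, this])
  have e1 : f 1 * f.symm 1 = 1 := (mult d f.toAddMonoidHom _).symm.trans (f.apply_symm_apply 1)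
  have e2 : f 1 * el d 1 = el d (-1) := (mult d f.toAddMonoidHom _).symm.trans hf
  obtain ⟨-, U, ⟨-, D, hU⟩, u⟩ := (f 1).2
  obtain ⟨-, V, -, v⟩ := (f.symm 1).2
  have c : ∀ l, U l = C ((U l).eval 0) := fun l => by
    have : U l * V l - 1 = 0 := ev_zero d l ((u.and v).mono fun n i j => by
      have := congrArg (fun x : R d => x.1 n) e1
      simpa [i.1, i.2, ev, j, sub_eq_zero] using this)
    rw [← coeff_zero_eq_eval_zero]
    exact eq_C_of_degree_eq_zero (degree_eq_zero_of_isUnit (.of_mul_eq_one _ (sub_eq_zero.1 this)))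
  have k := const_of D (fun l => (U l).eval 0)
    (fun l m lm g => by rw [← hU.2 l m lm g, c l]; simp) 0 1 one_pos
  have m : ∀ l, U l * bump 1 l - bump (-1) l = 0 := fun l => ev_zero d l (u.mono fun n i j => by
    have := congrArg (fun x : R d => x.1 n) e2
    simpa [i, el, ev, j, sub_eq_zero] using this)
  have m0 := congrArg (eval 2) (m 0)
  have m1 := congrArg (eval 2) (m 1)
  rw [c 0] at m0
  rw [c 1] at m1
  simp [bump] at m0 m1 k
  linarith

theorem result : ∃ (G : Type) (_ : AddCommGroup G),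
    IsAddTorsionFree G ∧ Krylov (G × G) ∧ ¬Transitive G := by
  obtain ⟨d⟩ := data
  exact ⟨R d, inferInstance, Function.Injective.isAddTorsionFree (R d).subtype.toAddMonoidHom
    Subtype.val_injective, krylov d, not_trans d⟩

end Pool.Agent.Results.MP_b84a00_al.NotTransitive
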